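import Mathlib
import Pool.Agent.X31.BK.Stm

set_option autoImplicit false

namespace Pool.Agent.X162.BK

open Filter Topology Set Asymptotics Pool.Agent.X31.BK

theorem t : S_ASY := by
  intro F τ lam hτ hlam hF
  have hτ0 : τ ≠ 0 := by
    intro h; rw [h, norm_zero] at hτ; norm_num at hτ
  have hne : τ - lam ≠ 0 := by
    intro h
    have h2 : τ = lam := sub_eq_zero.mp h
    rw [h2] at hτ; linarith
  have h1 : Tendsto (fun T : ℝ => 2 / (T + 1)) atTop (𝓝 0) :=
    tendsto_const_nhds.div_atTop (tendsto_atTop_add_const_right _ 1 tendsto_id)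
  have hq : Tendsto (fun T : ℝ => (2 : ℂ) / ((T : ℂ) + 1)) atTop (𝓝 0) := by
    have := (Complex.continuous_ofReal.tendsto 0).comp h1
    refine (this.congr fun T => ?_).trans (by simp)
    simp
  have hz : ∀ T : ℝ, 0 < T → zT τ T = τ - τ * (2 / ((T : ℂ) + 1)) := by
    intro T hT
    have hT' : (T : ℂ) + 1 ≠ 0 := by
      have : (T + 1 : ℝ) ≠ 0 := by positivity
      exact_mod_cast this
    unfold zT
    field_simp
    ring
  have hqn : ∀ T : ℝ, 0 < T → ‖(2 : ℂ) / ((T : ℂ) + 1)‖ = 2 / (T + 1) := by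
    intro T hT
    have : (2 : ℂ) / ((T : ℂ) + 1) = ((2 / (T + 1) : ℝ) : ℂ) := by push_cast; ring
    rw [this, Complex.norm_real, Real.norm_eq_abs, abs_of_pos (by positivity)]
  set a : ℝ → ℂ × ℂ := fun T => (zT τ T + lam, zT τ T * lam) with ha
  set p : ℂ × ℂ := (τ + lam, τ * lam) with hp
  have hnorm : ∀ T : ℝ, 0 < T → ‖a T - p‖ ≤ 2 / (T + 1) := by
    intro T hT
    rw [Prod.norm_def]
    refine max_le ?_ ?_
    · have : (a T - p).1 = -(τ * (2 / ((T : ℂ) + 1))) := by
        simp only [ha, hp, Prod.fst_sub, hz T hT]; ring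
      rw [this, norm_neg, norm_mul, hτ, one_mul, hqn T hT]
    · have : (a T - p).2 = -(τ * (2 / ((T : ℂ) + 1)) * lam) := by
        simp only [ha, hp, Prod.snd_sub, hz T hT]; ring
      rw [this, norm_neg, norm_mul, norm_mul, hτ, one_mul, hqn T hT]
      have : 0 ≤ 2 / (T + 1) := by positivity
      nlinarith [norm_nonneg lam]
  have hap : Tendsto a atTop (𝓝 p) := by
    rw [tendsto_iff_norm_sub_tendsto_zero]
    refine squeeze_zero' (Eventually.of_forall fun T => norm_nonneg _) ?_ h1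
    filter_upwards [eventually_gt_atTop 0] with T hT using hnorm T hT
  have haG : ∀ᶠ T in atTop, a T ∈ G2 := by
    filter_upwards [eventually_gt_atTop 1] with T hT
    refine ⟨zT τ T, lam, ?_, hlam, rfl⟩
    unfold zT
    have : ((T : ℂ) - 1) / ((T : ℂ) + 1) = (((T - 1) / (T + 1) : ℝ) : ℂ) := by push_cast; ring
    rw [this, norm_mul, hτ, one_mul, Complex.norm_real, Real.norm_eq_abs,
      abs_of_nonneg (div_nonneg (by linarith) (by linarith)), div_lt_one (by linarith)]
    linarith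
  have hF2 := hF.comp_tendsto (tendsto_nhdsWithin_iff.mpr ⟨hap, haG⟩)
  set δ : ℝ → ℂ × ℂ := fun T => F (a T) - a T with hδ
  have hδ3 : Tendsto (fun T : ℝ => ((T : ℂ) ^ 3) • δ T) atTop (𝓝 0) := by
    rw [tendsto_zero_iff_norm_tendsto_zero]
    rw [Metric.tendsto_nhds]
    intro ε hε
    have h3 := hF2.def (show (0 : ℝ) < ε / 16 by positivity)
    filter_upwards [h3, eventually_gt_atTop 0] with T hT3 hT
    rw [dist_zero_right, Real.norm_eq_abs, abs_of_nonneg (norm_nonneg _), norm_smul, norm_pow,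
      Complex.norm_real, Real.norm_eq_abs, abs_of_pos hT]
    have e1 : ‖δ T‖ ≤ ε / 16 * ‖a T - p‖ ^ 3 := by
      have := hT3
      simp only [Function.comp, norm_pow, norm_norm] at this
      exact this
    have e2 : ‖a T - p‖ ^ 3 ≤ (2 / (T + 1)) ^ 3 := by
      gcongr
      exact hnorm T hT
    have e3 : T ^ 3 * (2 / (T + 1)) ^ 3 ≤ 8 := by
      have : T * (2 / (T + 1)) ≤ 2 := by
        rw [mul_div_assoc', div_le_iff₀ (by linarith)]; nlinarith
      calc T ^ 3 * (2 / (T + 1)) ^ 3 = (T * (2 / (T + 1))) ^ 3 := by ring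
        _ ≤ 2 ^ 3 := by gcongr
        _ = 8 := by norm_num
    calc T ^ 3 * ‖δ T‖ ≤ T ^ 3 * (ε / 16 * (2 / (T + 1)) ^ 3) := by
          gcongr
          exact e1.trans (by gcongr)
      _ = ε / 16 * (T ^ 3 * (2 / (T + 1)) ^ 3) := by ring
      _ ≤ ε / 16 * 8 := by gcongr
      _ < ε := by linarith
  have d1 : Tendsto (fun T : ℝ => ((T : ℂ) ^ 3) * (δ T).1) atTop (𝓝 0) := by
    have := (continuous_fst.tendsto (0 : ℂ × ℂ)).comp hδ3
    simpa [Function.comp_def] using this
  have d2 : Tendsto (fun T : ℝ => ((T : ℂ) ^ 3) * (δ T).2) atTop (𝓝 0) := by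
    have := (continuous_snd.tendsto (0 : ℂ × ℂ)).comp hδ3
    simpa [Function.comp_def] using this
  -- T * δ → 0
  have hinv : Tendsto (fun T : ℝ => ((T : ℂ) ^ 2)⁻¹) atTop (𝓝 0) := by
    have h2 : Tendsto (fun T : ℝ => (T ^ 2)⁻¹) atTop (𝓝 0) :=
      (tendsto_pow_atTop (by norm_num)).inv_tendsto_atTop
    have := (Complex.continuous_ofReal.tendsto 0).comp h2
    refine (this.congr fun T => ?_).trans (by simp)
    simp
  have f1 : Tendsto (fun T : ℝ => (T : ℂ) * (δ T).1) atTop (𝓝 0) := by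
    have := d1.mul hinv
    rw [mul_zero] at this
    refine this.congr' ?_
    filter_upwards [eventually_gt_atTop 0] with T hT
    have : (T : ℂ) ≠ 0 := by exact_mod_cast hT.ne'
    field_simp
  have f2 : Tendsto (fun T : ℝ => (T : ℂ) * (δ T).2) atTop (𝓝 0) := by
    have := d2.mul hinv
    rw [mul_zero] at this
    refine this.congr' ?_
    filter_upwards [eventually_gt_atTop 0] with T hT
    have : (T : ℂ) ≠ 0 := by exact_mod_cast hT.ne'
    field_simp
  -- N and D
  set N : ℝ → ℂ := fun T => τ ^ 2 - (a T).2 with hN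
  set D : ℝ → ℂ := fun T => τ ^ 2 - τ * (a T).1 + (a T).2 with hD
  have hNt : Tendsto N atTop (𝓝 (τ ^ 2 - τ * lam)) := by
    have := (continuous_snd.tendsto p).comp hap
    exact tendsto_const_nhds.sub this
  have hDe : ∀ T : ℝ, 0 < T → D T = (2 / ((T : ℂ) + 1)) * (τ * (τ - lam)) := by
    intro T hT
    simp only [hD, ha, hz T hT]
    ring
  have hTq : Tendsto (fun T : ℝ => (T : ℂ) * (2 / ((T : ℂ) + 1))) atTop (𝓝 2) := by
    have : Tendsto (fun T : ℝ => 2 - (2 : ℂ) / ((T : ℂ) + 1)) atTop (𝓝 (2 - 0)) :=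
      tendsto_const_nhds.sub hq
    rw [sub_zero] at this
    refine this.congr' ?_
    filter_upwards [eventually_gt_atTop 0] with T hT
    have hT' : (T : ℂ) + 1 ≠ 0 := by
      have : (T + 1 : ℝ) ≠ 0 := by positivity
      exact_mod_cast this
    field_simp
    ring
  have hTD : Tendsto (fun T : ℝ => (T : ℂ) * D T) atTop (𝓝 (2 * (τ * (τ - lam)))) := by
    have := hTq.mul_const (τ * (τ - lam))
    refine this.congr' ?_
    filter_upwards [eventually_gt_atTop 0] with T hT
    rw [hDe T hT]; ring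
  have hTD' : Tendsto (fun T : ℝ => (T : ℂ) * (D T - τ * (δ T).1 + (δ T).2)) atTop
      (𝓝 (2 * (τ * (τ - lam)))) := by
    have := (hTD.sub (f1.const_mul τ)).add f2
    simp only [mul_zero, sub_zero, add_zero] at this
    refine this.congr fun T => ?_
    ring
  have hD0 : Tendsto D atTop (𝓝 0) := by
    have := hq.mul_const (τ * (τ - lam))
    rw [zero_mul] at this
    refine this.congr' ?_
    filter_upwards [eventually_gt_atTop 0] with T hT
    rw [hDe T hT]
  have hL : (2 * (τ * (τ - lam))) ≠ 0 := mul_ne_zero two_ne_zero (mul_ne_zero hτ0 hne)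
  have hnum : Tendsto (fun T : ℝ => 2 * Complex.I *
      (-(((T : ℂ) ^ 3) * (δ T).2) * D T + N T * τ * (((T : ℂ) ^ 3) * (δ T).1) -
        N T * (((T : ℂ) ^ 3) * (δ T).2))) atTop (𝓝 0) := by
    have := ((((d2.neg.mul hD0)).add ((hNt.mul_const τ).mul d1)).sub (hNt.mul d2)).const_mul
      (2 * Complex.I)
    simpa using this
  have hden := hTD'.mul hTD
  have hfin := hnum.div hden (mul_ne_zero hL hL)
  rw [zero_div] at hfin
  refine hfin.congr' ?_
  have hne' : ∀ᶠ T : ℝ in atTop, (T : ℂ) * (D T - τ * (δ T).1 + (δ T).2) ≠ 0 :=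
    hTD'.eventually_ne hL
  have hne'' : ∀ᶠ T : ℝ in atTop, (T : ℂ) * D T ≠ 0 := hTD.eventually_ne hL
  filter_upwards [hne', hne'', eventually_gt_atTop 0] with T hA hB hT
  have hT0 : (T : ℂ) ≠ 0 := by exact_mod_cast hT.ne'
  have hA' : D T - τ * (δ T).1 + (δ T).2 ≠ 0 := right_ne_zero_of_mul hA
  have hB' : D T ≠ 0 := right_ne_zero_of_mul hB
  have k1 : K τ (F (a T)) = 2 * Complex.I * (N T - (δ T).2) /
      (D T - τ * (δ T).1 + (δ T).2) := by
    unfold K
    congr 1
    · simp only [hN, hδ, Prod.snd_sub]; ring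
    · simp only [hD, hδ, Prod.snd_sub, Prod.fst_sub]; ring
  have k2 : K τ (a T) = 2 * Complex.I * N T / D T := by
    unfold K; rfl
  rw [k1, k2, Pi.div_apply]
  generalize D T = d at *
  generalize (δ T).1 = x at *
  generalize (δ T).2 = y at *
  generalize N T = m at *
  generalize (T : ℂ) = t at *
  rw [div_sub_div _ _ hA' hB', mul_div_assoc', div_eq_div_iff
    (mul_ne_zero hA hB) (mul_ne_zero hA' hB')]
  ring

end Pool.Agent.X162.BK
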